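import Pool.Agent.Helper6.MONO.Stmts

/-!
Uniform comparison of norms.
-/

set_option autoImplicit false
noncomputable section
namespace Pool.Agent.Helper6.MONO

theorem nrm_fire_add (G : Fin 3 → Fin 3 → ℂ) (i : Fin 3) (x y : V3) :
    fire G i (x + y) = fire G i x + fire G i y := by
  funext k
  by_cases hk : k = i
  · simp only [fire, Pi.add_apply, hk, if_true]
    have : ∑ j, (if j = i then 0 else G j i * (x j + y j)) =
        ∑ j, (if j = i then 0 else G j i * x j) + ∑ j, (if j = i then 0 else G j i * y j) := by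
      rw [← Finset.sum_add_distrib]
      refine Finset.sum_congr rfl (fun j _ => ?_)
      split_ifs
      · simp
      · ring
    rw [this]
    ring
  · simp only [fire, Pi.add_apply, hk, if_false]

theorem nrm_fire_smul (G : Fin 3 → Fin 3 → ℂ) (i : Fin 3) (c : ℂ) (x : V3) :
    fire G i (c • x) = c • fire G i x := by
  funext k
  by_cases hk : k = i
  · simp only [fire, Pi.smul_apply, smul_eq_mul, hk, if_true]
    have : ∑ j, (if j = i then 0 else G j i * (c * x j)) =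
        c * ∑ j, (if j = i then 0 else G j i * x j) := by
      rw [Finset.mul_sum]
      refine Finset.sum_congr rfl (fun j _ => ?_)
      split_ifs
      · simp
      · ring
    rw [this]
    ring
  · simp only [fire, Pi.smul_apply, smul_eq_mul, hk, if_false]

theorem nrm_gact_cons (G : Fin 3 → Fin 3 → ℂ) (i : Fin 3) (w : List (Fin 3)) (x : V3) :
    gact G (i :: w) x = gact G w (fire G i x) := rfl

theorem nrm_gact_app (G : Fin 3 → Fin 3 → ℂ) (u w : List (Fin 3)) (x : V3) :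
    gact G (u ++ w) x = gact G w (gact G u x) := by
  simp only [gact, List.foldl_append]

theorem nrm_gact_add (G : Fin 3 → Fin 3 → ℂ) (w : List (Fin 3)) (x y : V3) :
    gact G w (x + y) = gact G w x + gact G w y := by
  induction w generalizing x y with
  | nil => rfl
  | cons i w ih => rw [nrm_gact_cons, nrm_gact_cons, nrm_gact_cons, nrm_fire_add, ih]

theorem nrm_gact_smul (G : Fin 3 → Fin 3 → ℂ) (w : List (Fin 3)) (c : ℂ) (x : V3) :
    gact G w (c • x) = c • gact G w x := by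
  induction w generalizing x with
  | nil => rfl
  | cons i w ih => rw [nrm_gact_cons, nrm_gact_cons, nrm_fire_smul, ih]

/-- the action of a word as a linear map -/
def nrm_lin (G : Fin 3 → Fin 3 → ℂ) (w : List (Fin 3)) : E3 where
  toFun := gact G w
  map_add' := nrm_gact_add G w
  map_smul' := nrm_gact_smul G w

theorem nrm_lin_apply (G : Fin 3 → Fin 3 → ℂ) (w : List (Fin 3)) (x : V3) :
    nrm_lin G w x = gact G w x := rfl

theorem nrm_nonneg (f : V3 → V3) : 0 ≤ nrm f :=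
  Finset.sum_nonneg (fun _ _ => norm_nonneg _)

theorem nrm_bound (g : E3) (x : V3) : ‖g x‖ ≤ nrm g * ‖x‖ := by
  have hx : x = ∑ i, x i • (Pi.single i 1 : V3) := by
    funext k
    simp [Finset.sum_apply, Pi.single_apply]
  have h1 : g x = ∑ i, x i • g (Pi.single i 1) := by
    conv_lhs => rw [hx]
    rw [map_sum]
    exact Finset.sum_congr rfl (fun i _ => by rw [map_smul])
  rw [h1, nrm, Finset.sum_mul]
  refine (norm_sum_le _ _).trans (Finset.sum_le_sum (fun i _ => ?_))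
  rw [norm_smul, mul_comm]
  exact mul_le_mul_of_nonneg_left (norm_le_pi_norm x i) (norm_nonneg _)

theorem nrm_gact_bound (G : Fin 3 → Fin 3 → ℂ) (w : List (Fin 3)) (x : V3) :
    ‖gact G w x‖ ≤ nrm (gact G w) * ‖x‖ := nrm_bound (nrm_lin G w) x

/-- the Lipschitz constant of one letter -/
def nrm_K (G : Fin 3 → Fin 3 → ℂ) : ℝ := 1 + ∑ i, ∑ j, ‖G j i‖

theorem nrm_K_one (G : Fin 3 → Fin 3 → ℂ) : 1 ≤ nrm_K G := by
  have : 0 ≤ ∑ i, ∑ j, ‖G j i‖ :=
    Finset.sum_nonneg (fun _ _ => Finset.sum_nonneg (fun _ _ => norm_nonneg _))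
  unfold nrm_K
  linarith

theorem nrm_fire_bound (G : Fin 3 → Fin 3 → ℂ) (i : Fin 3) (x : V3) :
    ‖fire G i x‖ ≤ nrm_K G * ‖x‖ := by
  have hx : 0 ≤ ‖x‖ := norm_nonneg x
  have hK := nrm_K_one G
  rw [pi_norm_le_iff_of_nonneg (by positivity)]
  intro k
  by_cases hk : k = i
  · simp only [fire, hk, if_true]
    have h1 : ‖∑ j, (if j = i then 0 else G j i * x j)‖ ≤ (∑ j, ‖G j i‖) * ‖x‖ := by
      rw [Finset.sum_mul]
      refine (norm_sum_le _ _).trans (Finset.sum_le_sum (fun j _ => ?_))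
      split_ifs
      · simp only [norm_zero]
        positivity
      · rw [norm_mul]
        exact mul_le_mul_of_nonneg_left (norm_le_pi_norm x j) (norm_nonneg _)
    have h2 : ∑ j, ‖G j i‖ ≤ ∑ i, ∑ j, ‖G j i‖ :=
      Finset.single_le_sum (f := fun i => ∑ j, ‖G j i‖)
        (fun _ _ => Finset.sum_nonneg (fun _ _ => norm_nonneg _)) (Finset.mem_univ i)
    calc ‖-x i + ∑ j, (if j = i then 0 else G j i * x j)‖
        ≤ ‖-x i‖ + ‖∑ j, (if j = i then 0 else G j i * x j)‖ := norm_add_le _ _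
      _ ≤ ‖x‖ + (∑ i, ∑ j, ‖G j i‖) * ‖x‖ := by
          rw [norm_neg]
          exact add_le_add (norm_le_pi_norm x i)
            (h1.trans (mul_le_mul_of_nonneg_right h2 hx))
      _ = nrm_K G * ‖x‖ := by unfold nrm_K; ring
  · simp only [fire, hk, if_false]
    calc ‖x k‖ ≤ ‖x‖ := norm_le_pi_norm x k
      _ = 1 * ‖x‖ := (one_mul _).symm
      _ ≤ nrm_K G * ‖x‖ := mul_le_mul_of_nonneg_right hK hx

theorem nrm_word_bound (G : Fin 3 → Fin 3 → ℂ) (h : List (Fin 3)) (x : V3) :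
    ‖gact G h x‖ ≤ nrm_K G ^ h.length * ‖x‖ := by
  induction h generalizing x with
  | nil => simp [gact]
  | cons i h ih =>
    rw [nrm_gact_cons, List.length_cons, pow_succ, mul_assoc]
    have hK := nrm_K_one G
    exact (ih _).trans (mul_le_mul_of_nonneg_left (nrm_fire_bound G i x) (by positivity))

theorem nrm_word_bound' (G : Fin 3 → Fin 3 → ℂ) (h : List (Fin 3)) (B : ℕ) (hB : h.length ≤ B)
    (x : V3) : ‖gact G h x‖ ≤ nrm_K G ^ B * ‖x‖ :=
  (nrm_word_bound G h x).trans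
    (mul_le_mul_of_nonneg_right (pow_le_pow_right₀ (nrm_K_one G) hB) (norm_nonneg _))

theorem nrm_inv (hI : ST_INV) (p q r : ℕ) (hp : 3 ≤ p) (hq : 3 ≤ q) (hr : 3 ≤ r)
    (τ : ℝ) (G : Fin 3 → Fin 3 → ℂ) (hG : IsG p q r τ G) (h : List (Fin 3)) (x : V3) :
    gact G h.reverse (gact G h x) = x := by
  induction h generalizing x with
  | nil => rfl
  | cons i h ih =>
    have e1 : gact G (i :: h).reverse (gact G (i :: h) x) =
        fire G i (gact G h.reverse (gact G h (fire G i x))) := by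
      rw [List.reverse_cons, nrm_gact_app]
      rfl
    rw [e1, ih]
    exact hI p q r hp hq hr i τ G hG x

/-- comparison for one star and one starting value -/
theorem nrm_one (hPTH : ST_PTH) (hE : ST_BLK true) (hO : ST_BLK false) (hCHN : ST_CHN)
    (p q r : ℕ) (hp : 3 ≤ p) (hq : 3 ≤ q) (hr : 3 ≤ r) (C : ℝ) :
    ∃ C1 : ℝ, 0 < C1 ∧ ∀ (τ : ℝ) (G : Fin 3 → Fin 3 → ℂ), |τ| ≤ 1 → IsG p q r τ G →
      ∀ (c d e : Fin 3) (bs : List (Bool × ℕ)), Dist c d e → okPath p q r false (c, d, e) bs →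
      ∀ (x : V3) (z : RV), Ch p q r τ G (c, d, e) x 1 z → nP p q r (τ ^ 2) (c, d, e) z bs →
      |(zP p q r (τ ^ 2) (c, d, e) z bs).a| ≤ C →
      |(zP p q r (τ ^ 2) (c, d, e) z bs).b| ≤ C →
      |(zP p q r (τ ^ 2) (c, d, e) z bs).be| ≤ C →
      |(zP p q r (τ ^ 2) (c, d, e) z bs).yr| ≤ C →
      fP p q r (τ ^ 2) (c, d, e) z bs ≤ ‖gact G (bw (c, d, e) bs) x‖ ^ 2 ∧
      ‖gact G (bw (c, d, e) bs) x‖ ^ 2 ≤ C1 ^ 2 * fP p q r (τ ^ 2) (c, d, e) z bs := by
  obtain ⟨C1, hC1, hch⟩ := hCHN p q r hp hq hr C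
  refine ⟨C1, hC1, ?_⟩
  intro τ G hτ hG c d e bs hD hok x z hx hn ha hb hbe hyr
  obtain ⟨ξ', hξ', hD', hCh', hf⟩ := hPTH hE hO p q r hp hq hr τ G hG bs c d e false hD hok x 1 z
    one_ne_zero hx hn
  rw [norm_one, one_pow, mul_one] at hf
  obtain ⟨h1, h2⟩ := hch τ G hτ hG _ _ _ hD' _ ξ' _ hCh' ha hb hbe hyr
  rw [← hf]
  have h0 : 0 ≤ ‖ξ'‖ := norm_nonneg _
  constructor
  · exact pow_le_pow_left₀ h0 h1 2
  · rw [← mul_pow]
    exact pow_le_pow_left₀ (norm_nonneg _) h2 2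

/-- a basis controls the norm -/
theorem nrm_basis (x : Fin 3 → V3) (hx : LinearIndependent ℂ x) :
    ∃ C : ℝ, 0 ≤ C ∧ ∀ (g : E3) (A : ℝ), (∀ i, ‖g (x i)‖ ≤ A) → nrm g ≤ C * A := by
  classical
  have hcard : Fintype.card (Fin 3) = Module.finrank ℂ V3 := by simp
  let b := basisOfLinearIndependentOfCardEqFinrank hx hcard
  have hb : ∀ i, b i = x i := fun i => by
    simp [b]
  refine ⟨∑ j : Fin 3, ∑ i : Fin 3, ‖b.repr (Pi.single j 1) i‖,
    Finset.sum_nonneg (fun _ _ => Finset.sum_nonneg (fun _ _ => norm_nonneg _)), ?_⟩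
  intro g A hA
  rw [nrm, Finset.sum_mul]
  refine Finset.sum_le_sum (fun j _ => ?_)
  have h1 : g (Pi.single j 1) = ∑ i, b.repr (Pi.single j 1) i • g (x i) := by
    conv_lhs => rw [← b.sum_repr (Pi.single j 1)]
    rw [map_sum]
    exact Finset.sum_congr rfl (fun i _ => by rw [map_smul, hb])
  rw [h1, Finset.sum_mul]
  refine (norm_sum_le _ _).trans (Finset.sum_le_sum (fun i _ => ?_))
  rw [norm_smul]
  exact mul_le_mul_of_nonneg_left (hA i) (norm_nonneg _)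

theorem nrm_isA0 (i : Fin 3) : isA0 (av i) := by
  fin_cases i
  · exact Or.inl rfl
  · exact Or.inr (Or.inl rfl)
  · exact Or.inr (Or.inr rfl)

/-- comparison for one star -/
theorem nrm_star (hPTH : ST_PTH) (hE : ST_BLK true) (hO : ST_BLK false) (hCHN : ST_CHN)
    (hSPN : ST_SPN) (p q r : ℕ) (hp : 3 ≤ p) (hq : 3 ≤ q) (hr : 3 ≤ r) (s1 : ℝ) (hs1 : s1 ≤ 1)
    (hMB : MB p q r 0 s1) (τ τ' : ℝ) (G G' : Fin 3 → Fin 3 → ℂ) (hττ : |τ| ≤ |τ'|)
    (hτ' : τ' ^ 2 ≤ s1) (hG : IsG p q r τ G) (hG' : IsG p q r τ' G') (c d e : Fin 3)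
    (hD : Dist c d e) :
    ∃ C : ℝ, 0 ≤ C ∧ ∀ bs : List (Bool × ℕ), okPath p q r false (c, d, e) bs →
      ∀ A : ℝ, 0 ≤ A → (∀ x : V3, ‖gact G (bw (c, d, e) bs) x‖ ≤ A * ‖x‖) →
      nrm (gact G' (bw (c, d, e) bs)) ≤ C * A := by
  obtain ⟨CM, hCM, hM⟩ := hMB
  have hsq : τ ^ 2 ≤ τ' ^ 2 := sq_le_sq.mpr hττ
  have hs0 : 0 ≤ τ ^ 2 := sq_nonneg _
  have hs0' : 0 ≤ τ' ^ 2 := sq_nonneg _
  have hτs1 : τ ^ 2 ≤ s1 := hsq.trans hτ'
  have hτ'1 : |τ'| ≤ 1 := by
    rw [← abs_one (α := ℝ)]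
    exact sq_le_sq.mp (by linarith)
  have hτ1 : |τ| ≤ 1 := hττ.trans hτ'1
  obtain ⟨C1, hC1, hone⟩ := nrm_one hPTH hE hO hCHN p q r hp hq hr CM
  obtain ⟨x, hxi, hx⟩ := hSPN p q r hp hq hr τ G hG c d e hD
    (fun i => (hM c d e hD (av i) (nrm_isA0 i) [] trivial (τ ^ 2) hs0 hτs1).1)
  obtain ⟨x', hxi', hx'⟩ := hSPN p q r hp hq hr τ' G' hG' c d e hD
    (fun i => (hM c d e hD (av i) (nrm_isA0 i) [] trivial (τ' ^ 2) hs0' hτ').1)
  obtain ⟨Cb, hCb, hbas⟩ := nrm_basis x' hxi'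
  set X : ℝ := ∑ i, ‖x i‖ with hX
  have hX0 : 0 ≤ X := Finset.sum_nonneg (fun _ _ => norm_nonneg _)
  refine ⟨Cb * (C1 * (Real.sqrt CM * X)), by positivity, ?_⟩
  intro bs hok A hA hgA
  rw [mul_assoc]
  refine hbas (nrm_lin G' (bw (c, d, e) bs)) (C1 * (Real.sqrt CM * X) * A) ?_
  intro i
  rw [nrm_lin_apply]
  obtain ⟨-, hn, hf0, -, ha, hb, hbe, hyr, hcmp⟩ :=
    hM c d e hD (av i) (nrm_isA0 i) bs hok (τ ^ 2) hs0 hτs1
  obtain ⟨-, hn', hf0', -, ha', hb', hbe', hyr', -⟩ :=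
    hM c d e hD (av i) (nrm_isA0 i) bs hok (τ' ^ 2) hs0' hτ'
  have hcmp' := hcmp (τ' ^ 2) hsq hτ'
  have h1 := (hone τ G hτ1 hG c d e bs hD hok (x i) _ (hx i) hn ha hb hbe hyr).1
  have h2 := (hone τ' G' hτ'1 hG' c d e bs hD hok (x' i) _ (hx' i) hn' ha' hb' hbe' hyr').2
  have h3 : ‖gact G (bw (c, d, e) bs) (x i)‖ ≤ A * X := by
    refine (hgA (x i)).trans (mul_le_mul_of_nonneg_left ?_ hA)
    exact Finset.single_le_sum (f := fun i => ‖x i‖) (fun _ _ => norm_nonneg _)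
      (Finset.mem_univ i)
  have h4 : ‖gact G (bw (c, d, e) bs) (x i)‖ ^ 2 ≤ (A * X) ^ 2 :=
    pow_le_pow_left₀ (norm_nonneg _) h3 2
  have h5 : ‖gact G' (bw (c, d, e) bs) (x' i)‖ ^ 2 ≤ (C1 * (Real.sqrt CM * X) * A) ^ 2 := by
    calc ‖gact G' (bw (c, d, e) bs) (x' i)‖ ^ 2
        ≤ C1 ^ 2 * fP p q r (τ' ^ 2) (c, d, e) (zst p q r (τ' ^ 2) (c, d, e) (av i)) bs := h2
      _ ≤ C1 ^ 2 * (CM * (A * X) ^ 2) := by
          refine mul_le_mul_of_nonneg_left (hcmp'.trans ?_) (sq_nonneg _)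
          exact mul_le_mul_of_nonneg_left (h1.trans h4) hCM.le
      _ = (C1 * (Real.sqrt CM * X) * A) ^ 2 := by
          have : Real.sqrt CM ^ 2 = CM := Real.sq_sqrt hCM.le
          calc C1 ^ 2 * (CM * (A * X) ^ 2) = C1 ^ 2 * (Real.sqrt CM ^ 2 * (A * X) ^ 2) := by
                rw [this]
            _ = _ := by ring
  exact le_of_sq_le_sq h5 (by positivity)

theorem st_NRM : ST_NRM := by
  intro hPATH hPTH hE hO hCHN hSPN hINV p q r hp hq hr s1 hs1 hMB τ τ' G G' hττ hτ' hG hG'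
  obtain ⟨B, hB⟩ := hPATH p q r hp hq hr
  classical
  have hst : ∀ t : Fin 3 × Fin 3 × Fin 3, ∃ C : ℝ, 0 ≤ C ∧ (Dist t.1 t.2.1 t.2.2 →
      ∀ bs : List (Bool × ℕ), okPath p q r false t bs →
      ∀ A : ℝ, 0 ≤ A → (∀ x : V3, ‖gact G (bw t bs) x‖ ≤ A * ‖x‖) →
      nrm (gact G' (bw t bs)) ≤ C * A) := by
    rintro ⟨c, d, e⟩
    by_cases hD : Dist c d e
    · obtain ⟨C, hC, h⟩ := nrm_star hPTH hE hO hCHN hSPN p q r hp hq hr s1 hs1 hMB τ τ' G G' hττ
        hτ' hG hG' c d e hD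
      exact ⟨C, hC, fun _ => h⟩
    · exact ⟨0, le_rfl, fun h => absurd h hD⟩
  choose Ct hCt0 hCt using hst
  set CS : ℝ := ∑ t, Ct t with hCS
  have hCS0 : 0 ≤ CS := Finset.sum_nonneg (fun t _ => hCt0 t)
  have hK := nrm_K_one G
  have hK' := nrm_K_one G'
  refine ⟨3 * (CS * nrm_K G ^ B) * nrm_K G' ^ B, ?_⟩
  intro w
  obtain ⟨h, c, d, e, bs, hD, hlen, hok, hEq⟩ := hB w
  have hN := nrm_nonneg (gact G w)
  -- bound for the path in G
  have h1 : ∀ x : V3, ‖gact G (bw (c, d, e) bs) x‖ ≤ (nrm_K G ^ B * nrm (gact G w)) * ‖x‖ := by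
    intro x
    have e1 : gact G h (gact G h.reverse x) = x := by
      have := nrm_inv hINV p q r hp hq hr τ G hG h.reverse x
      rwa [List.reverse_reverse] at this
    have e2 : gact G (bw (c, d, e) bs) x = gact G w (gact G h.reverse x) := by
      rw [hEq τ G hG, nrm_gact_app, e1]
    rw [e2]
    calc ‖gact G w (gact G h.reverse x)‖ ≤ nrm (gact G w) * ‖gact G h.reverse x‖ :=
          nrm_gact_bound G w _
      _ ≤ nrm (gact G w) * (nrm_K G ^ B * ‖x‖) :=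
          mul_le_mul_of_nonneg_left
            (nrm_word_bound' G h.reverse B (by rwa [List.length_reverse]) x) hN
      _ = (nrm_K G ^ B * nrm (gact G w)) * ‖x‖ := by ring
  have h2 := hCt (c, d, e) hD bs hok (nrm_K G ^ B * nrm (gact G w)) (by positivity) h1
  have h3 : Ct (c, d, e) ≤ CS :=
    Finset.single_le_sum (f := Ct) (fun t _ => hCt0 t) (Finset.mem_univ _)
  have h4 : nrm (gact G' (bw (c, d, e) bs)) ≤ CS * (nrm_K G ^ B * nrm (gact G w)) :=
    h2.trans (mul_le_mul_of_nonneg_right h3 (by positivity))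
  have h5 : ∀ i : Fin 3, ‖gact G' w (Pi.single i 1)‖ ≤
      CS * (nrm_K G ^ B * nrm (gact G w)) * nrm_K G' ^ B := by
    intro i
    rw [hEq τ' G' hG', nrm_gact_app]
    have hs : ‖(Pi.single i 1 : V3)‖ = 1 := by
      rw [Pi.norm_single, norm_one]
    calc ‖gact G' (bw (c, d, e) bs) (gact G' h (Pi.single i 1))‖
        ≤ nrm (gact G' (bw (c, d, e) bs)) * ‖gact G' h (Pi.single i 1)‖ := nrm_gact_bound G' _ _
      _ ≤ CS * (nrm_K G ^ B * nrm (gact G w)) * nrm_K G' ^ B := by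
          refine mul_le_mul h4 ?_ (norm_nonneg _) (by positivity)
          have := nrm_word_bound' G' h B hlen (Pi.single i 1)
          rwa [hs, mul_one] at this
  calc nrm (gact G' w) = ∑ i : Fin 3, ‖gact G' w (Pi.single i 1)‖ := rfl
    _ ≤ ∑ _i : Fin 3, CS * (nrm_K G ^ B * nrm (gact G w)) * nrm_K G' ^ B :=
        Finset.sum_le_sum (fun i _ => h5 i)
    _ = 3 * (CS * nrm_K G ^ B) * nrm_K G' ^ B * nrm (gact G w) := by
        rw [Finset.sum_const, Finset.card_univ, Fintype.card_fin, nsmul_eq_mul]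
        push_cast
        ring

end Pool.Agent.Helper6.MONO
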